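import Pool.Agent.H.MP_bc7fec_lc.C

set_option autoImplicit false

namespace Pool.Agent.Results.MP_bc7fec_lc.Poly

open Pool.Agent.Lib.CX Pool.Agent.H.MP_bc7fec_lc

theorem result : InP Pres := main

end Pool.Agent.Results.MP_bc7fec_lc.Poly
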